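import Pool.Agent.Helper33_KK.G_SWG
import Pool.Agent.Helper40_KK.E_MIX

/-!
# Squad KK: row G_TOK (far flip with a connector)
-/

set_option autoImplicit false
set_option linter.unusedSectionVars false

namespace Pool.Agent.KK.E.H76

open Pool.Agent.KK Pool.Agent.KK.E Pool.Agent.KK.E.H40 Pool.Agent.KK.E.H33

/-! ## Words -/

theorem wt_app (u v : List Bool) : wt (u ++ v) = wt u + wt v := List.count_append ..

/-- windows of a periodic word -/
theorem wt_win (A : List Bool) (a : ℕ) (ha : a + 2 ≤ A.length) :
    wt (((A.tail ++ A.dropLast).drop a).take A.length) = wt A := by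
  have h1 : A.tail ++ A.dropLast = (A.drop 1) ++ A.take (A.length - 1) := by
    rw [List.drop_one, List.dropLast_eq_take]
  rw [h1, List.drop_append_of_le_length (by rw [List.length_drop]; omega), List.drop_drop,
    List.take_append, List.take_of_length_le (by rw [List.length_drop]; omega),
    List.length_drop, List.take_take, wt_app]
  have h3 : min (A.length - (A.length - (1 + a))) (A.length - 1) = a + 1 := by omega
  rw [h3]
  have h4 : wt (A.take (a + 1)) + wt (A.drop (a + 1)) = wt A := by
    rw [← wt_app, List.take_append_drop]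
  rw [Nat.add_comm 1 a]
  omega

/-- the places of the letters of `m₁ ++ m₂` in `m₁ ++ y :: m₂` -/
theorem exists_hp (p q : ℕ) (m₁ m₂ : List Bool) (hl : m₁.length + m₂.length = p + q)
    (hw : wt m₁ + wt m₂ = p) :
    ∃ hp : Fin p ⊕ Fin q → ℕ, Function.Injective hp ∧
      (∀ t, hp t < p + q + 1 ∧ hp t ≠ m₁.length) ∧
      (∀ h, h < p + q + 1 → h ≠ m₁.length → ∃ t, hp t = h) ∧
      ∀ t (y : Bool), (m₁ ++ y :: m₂).getD (hp t) false = t.isLeft := by
  classical
  have hlm : (m₁ ++ m₂).length = p + q := by rw [List.length_append, hl]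
  have hT : (Finset.univ.filter fun i : Fin (p + q) => (m₁ ++ m₂).getD i false = true).card =
      p := by
    rw [count_letters _ hlm, List.count_append]
    exact hw
  have hF : (Finset.univ.filter fun i : Fin (p + q) => (m₁ ++ m₂).getD i false = false).card =
      q := by
    have h1 := Finset.card_filter_add_card_filter_not
      (s := (Finset.univ : Finset (Fin (p + q)))) (fun i => (m₁ ++ m₂).getD i false = true)
    rw [hT, Finset.card_univ, Fintype.card_fin] at h1
    have h2 : (Finset.univ.filter fun i : Fin (p + q) => ¬ (m₁ ++ m₂).getD i false = true) =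
        Finset.univ.filter fun i : Fin (p + q) => (m₁ ++ m₂).getD i false = false := by
      ext i
      simp
    rw [h2] at h1
    omega
  let eT := Finset.equivFinOfCardEq hT
  let eF := Finset.equivFinOfCardEq hF
  let e : Fin p ⊕ Fin q → Fin (p + q) := Sum.elim (fun t => (eT.symm t).1) (fun t => (eF.symm t).1)
  have heT : ∀ t, (m₁ ++ m₂).getD (e (Sum.inl t)) false = true := fun t =>
    (Finset.mem_filter.1 (eT.symm t).2).2
  have heF : ∀ t, (m₁ ++ m₂).getD (e (Sum.inr t)) false = false := fun t =>
    (Finset.mem_filter.1 (eF.symm t).2).2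
  have heI : Function.Injective e := by
    intro x y hxy
    rcases x with x | x <;> rcases y with y | y
    · exact congrArg Sum.inl (eT.symm.injective (Subtype.ext hxy))
    · have h1 := heT x
      rw [hxy, heF y] at h1
      exact absurd h1 (by decide)
    · have h1 := heF x
      rw [hxy, heT y] at h1
      exact absurd h1 (by decide)
    · exact congrArg Sum.inr (eF.symm.injective (Subtype.ext hxy))
  have heS : ∀ r : Fin (p + q), ∃ t, e t = r := by
    intro r
    cases hr : (m₁ ++ m₂).getD r false
    · exact ⟨Sum.inr (eF ⟨r, Finset.mem_filter.2 ⟨Finset.mem_univ _, hr⟩⟩), by simp [e]⟩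
    · exact ⟨Sum.inl (eT ⟨r, Finset.mem_filter.2 ⟨Finset.mem_univ _, hr⟩⟩), by simp [e]⟩
  refine ⟨fun t => if ((e t : Fin (p + q)) : ℕ) < m₁.length then e t else e t + 1, ?_, ?_, ?_, ?_⟩
  · intro x y hxy
    apply heI
    apply Fin.ext
    simp only at hxy
    split_ifs at hxy <;> omega
  · intro t
    have := (e t).2
    simp only
    split_ifs <;> omega
  · intro h h1 h2
    by_cases h3 : h < m₁.length
    · obtain ⟨t, ht⟩ := heS ⟨h, by omega⟩
      refine ⟨t, ?_⟩
      simp only [ht]
      rw [if_pos h3]
    · obtain ⟨t, ht⟩ := heS ⟨h - 1, by omega⟩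
      refine ⟨t, ?_⟩
      simp only [ht]
      rw [if_neg (by omega)]
      omega
  · intro t y
    have h1 : (m₁ ++ m₂).getD (e t) false = t.isLeft := by
      rcases t with t | t
      · exact heT t
      · exact heF t
    rw [← h1]
    simp only
    split_ifs with h2
    · rw [List.getD_append _ _ _ _ h2, List.getD_append _ _ _ _ h2]
    · rw [List.getD_append_right _ _ _ _ (by omega), List.getD_append_right _ _ _ _ (by omega)]
      have h3 : (e t : ℕ) + 1 - m₁.length = ((e t : ℕ) - m₁.length) + 1 := by omega
      rw [h3, List.getD_cons_succ]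

variable {V : Type} [Fintype V] [DecidableEq V]

/-- density of the event in any box that contains the used coordinates -/
theorem dens_PE' (h01 : StmtE01) (h02 : StmtE02) (h20 : StmtE20) {H : Finset (Finset V)}
    {X M : Finset V} {a q : ℕ} (hX : X.Nonempty) (hX' : (Xᶜ).Nonempty) {ι : Type} [Fintype ι]
    (b : ι → Finset V) (hb : ∀ i, (b i).Nonempty)
    (φ : ((Fin a ⊕ Fin q) × Bool) ⊕ Bool → ι) (hφ : Function.Injective φ)
    (hbl : ∀ t c, b (φ (Sum.inl (t, c))) = sd X t.isLeft) (hbr : ∀ c, b (φ (Sum.inr c)) = sd X c)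
    {d : ℝ} (hd0 : 0 ≤ d) (hd : d ≤ Mix H X M a q) :
    d ^ (2 ^ (a + q + 2)) ≤ dens b (fun f => PE H M (f ∘ φ)) := by
  have hsd : ∀ b, (sd X b).Nonempty := by
    intro b
    unfold sd
    split_ifs
    · exact hX
    · exact hX'
  have hlets : ∀ i, (lets X a q i).Nonempty := by
    intro i
    rcases i with i | i
    · exact hX
    · exact hX'
  set cM : (Fin a ⊕ Fin q) ⊕ Bool → Finset V :=
    Sum.elim (lets X a q) (fun t : Bool => sd X t) with hcM
  have hcMne : ∀ i, (cM i).Nonempty := by
    intro i
    rcases i with i | i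
    · exact hlets i
    · exact hsd i
  have h1 := h20 V ((Fin a ⊕ Fin q) ⊕ Bool) cM
    (fun f => insert (f (Sum.inr true)) (M ∪ Finset.univ.image fun i => f (Sum.inl i)) ∈ H ∧
      insert (f (Sum.inr false)) (M ∪ Finset.univ.image fun i => f (Sum.inl i)) ∈ H) d hcMne hd0 hd
  have hcard : Fintype.card ((Fin a ⊕ Fin q) ⊕ Bool) = a + q + 2 := by
    simp only [Fintype.card_sum, Fintype.card_fin, Fintype.card_bool]
  rw [hcard] at h1
  refine h1.trans ?_
  let ψ : ((Fin a ⊕ Fin q) × Bool) ⊕ Bool → ((Fin a ⊕ Fin q) ⊕ Bool) × Bool :=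
    Sum.elim (fun x => (Sum.inl x.1, x.2)) (fun b => (Sum.inr b, false))
  have hψ : Function.Injective ψ := by
    intro x y hxy
    rcases x with ⟨t, c⟩ | c <;> rcases y with ⟨t', c'⟩ | c' <;>
      simp only [ψ, Sum.elim_inl, Sum.elim_inr, Prod.mk.injEq, Sum.inl.injEq, Sum.inr.injEq,
        reduceCtorEq, false_and, and_true] at hxy
    · rw [hxy.1, hxy.2]
    · rw [hxy]
  have hbig : ∀ z : ((Fin a ⊕ Fin q) ⊕ Bool) × Bool,
      ((fun z : ((Fin a ⊕ Fin q) ⊕ Bool) × Bool => cM z.1) z).Nonempty := fun z => hcMne z.1
  have h3 := (h01 V (((Fin a ⊕ Fin q) ⊕ Bool) × Bool) (fun z => cM z.1) hbig).2.1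
    (fun g => ∀ s : (Fin a ⊕ Fin q) ⊕ Bool → Bool,
      insert ((fun i => g (i, s i)) (Sum.inr true))
        (M ∪ Finset.univ.image fun i => (fun i => g (i, s i)) (Sum.inl i)) ∈ H ∧
      insert ((fun i => g (i, s i)) (Sum.inr false))
        (M ∪ Finset.univ.image fun i => (fun i => g (i, s i)) (Sum.inl i)) ∈ H)
    (fun g => PE H M (g ∘ ψ)) (by
      intro g _ hg s
      exact hg (Sum.elim s (fun _ => false)))
  refine h3.trans (le_of_eq ?_)
  rw [h02 V (((Fin a ⊕ Fin q) ⊕ Bool) × Bool) (((Fin a ⊕ Fin q) × Bool) ⊕ Bool)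
    (fun z => cM z.1) ψ hbig hψ (PE H M)]
  rw [h02 V ι (((Fin a ⊕ Fin q) × Bool) ⊕ Bool) b φ hb hφ (PE H M)]
  congr 1
  funext x
  rcases x with ⟨t, c⟩ | c
  · rw [Function.comp_apply, Function.comp_apply, hbl]
    rcases t with t | t <;> rfl
  · rw [Function.comp_apply, Function.comp_apply, hbr]
    rfl


/-- **G08** -/
theorem g_tok (h01 : StmtE01) (h02 : StmtE02) (h20 : StmtE20) (h00 : StmtG00) : StmtG08 := by
  classical
  intro V _ _ H X p q B δ h ε κ η θ z m₁ m₂ hpq hA hC hNon hMix hl hw hκ Z hZ hzZ
  obtain ⟨_, hX, hX', _⟩ := amb_nonempty hA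
  have hθ0 : 0 < θ 1 := hC.cst.tpos 1 le_rfl (by omega)
  have hη0 : 0 < η 0 := hC.cst.pos 0 (by omega)
  have hτ : 0 < (θ 1) ^ (2 ^ (p + q + 2)) := pow_pos hθ0 _
  obtain ⟨hp, hpI, hp1, hp2, hp3⟩ := exists_hp p q m₁ m₂ hl hw
  have hm1 : m₁.length < p + q + 1 := by omega
  have hLl : (m₁ ++ false :: m₂).length = p + q + 1 := by
    rw [List.length_append, List.length_cons]; omega
  have hRl : (m₁ ++ true :: m₂).length = p + q + 1 := by
    rw [List.length_append, List.length_cons]; omega
  obtain ⟨c, hc⟩ : ∃ c, c = (m₁ ++ false :: m₂) ++ decide (z ∈ X) :: (m₁ ++ true :: m₂) :=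
    ⟨_, rfl⟩
  have hcl : c.length = 2 * p + 2 * q + 3 := by
    rw [hc, List.length_append, List.length_cons, hLl, hRl]; omega
  have hc1 : ∀ i, i < p + q + 1 → c.getD i false = (m₁ ++ false :: m₂).getD i false := by
    intro i hi
    rw [hc, List.getD_append _ _ _ _ (by omega)]
  have hc2 : c.getD (p + q + 1) false = decide (z ∈ X) := by
    rw [hc, List.getD_append_right _ _ _ _ (by omega), hLl, Nat.sub_self, List.getD_cons_zero]
  have hc3 : ∀ i, c.getD (p + q + 2 + i) false = (m₁ ++ true :: m₂).getD i false := by
    intro i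
    have h1 : p + q + 2 + i - (p + q + 1) = i + 1 := by omega
    rw [hc, List.getD_append_right _ _ _ _ (by omega), hLl, h1, List.getD_cons_succ]
  let o : Fin (2 * p + 2 * q + 3) → Option V := fun i =>
    if (i : ℕ) = p + q + 1 then some z else none
  have ho1 : ∀ i v, o i = some v → (i : ℕ) = p + q + 1 ∧ v = z := by
    intro i v hi
    by_cases h1 : (i : ℕ) = p + q + 1
    · have h2 : o i = some z := if_pos h1
      rw [h2, Option.some_inj] at hi
      exact ⟨h1, hi.symm⟩
    · have h2 : o i = none := if_neg h1
      rw [h2] at hi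
      exact absurd hi.symm (Option.some_ne_none _)
  have ho2 : ∀ i : Fin (2 * p + 2 * q + 3), (i : ℕ) ≠ p + q + 1 → o i = none := fun i h1 =>
    if_neg h1
  have ho3 : ∀ i : Fin (2 * p + 2 * q + 3), (i : ℕ) = p + q + 1 → o i = some z := fun i h1 =>
    if_pos h1
  let φ : ((Fin p ⊕ Fin q) × Bool) ⊕ Bool → Fin (2 * p + 2 * q + 3) :=
    Sum.elim (fun x => ⟨(if x.2 then p + q + 2 else 0) + hp x.1, by
      have := (hp1 x.1).1; split_ifs <;> omega⟩)
      (fun b => ⟨(if b then p + q + 2 else 0) + m₁.length, by split_ifs <;> omega⟩)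
  have hφl : ∀ t b, ((φ (Sum.inl (t, b)) : Fin _) : ℕ) = (if b then p + q + 2 else 0) + hp t :=
    fun _ _ => rfl
  have hφr : ∀ b, ((φ (Sum.inr b) : Fin _) : ℕ) = (if b then p + q + 2 else 0) + m₁.length :=
    fun _ => rfl
  have hφI : Function.Injective φ := by
    intro x y hxy
    have hv := congrArg Fin.val hxy
    rcases x with ⟨t, b⟩ | b <;> rcases y with ⟨t', b'⟩ | b'
    · rw [hφl, hφl] at hv
      have h1 := (hp1 t).1
      have h2 := (hp1 t').1
      have h3 : b = b' := by
        rcases b with _ | _ <;> rcases b' with _ | _ <;>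
          simp only [if_true, if_false, Bool.false_eq_true] at hv <;> first | rfl | omega
      subst h3
      rw [hpI (Nat.add_left_cancel hv)]
    · rw [hφl, hφr] at hv
      have h1 := hp1 t
      exfalso
      rcases b with _ | _ <;> rcases b' with _ | _ <;>
        simp only [if_true, if_false, Bool.false_eq_true] at hv <;> omega
    · rw [hφl, hφr] at hv
      have h1 := hp1 t'
      exfalso
      rcases b with _ | _ <;> rcases b' with _ | _ <;>
        simp only [if_true, if_false, Bool.false_eq_true] at hv <;> omega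
    · rw [hφr, hφr] at hv
      rcases b with _ | _ <;> rcases b' with _ | _ <;>
        simp only [if_true, if_false, Bool.false_eq_true] at hv <;> first | rfl | omega
  have hsd : ∀ b, (sd X b).Nonempty := by
    intro b
    unfold sd
    split_ifs
    · exact hX
    · exact hX'
  have hbx : ∀ i, (bx X (fun i : Fin (2 * p + 2 * q + 3) => c.getD i false) o i).Nonempty := by
    intro i
    unfold bx
    rcases o i with _ | v
    · exact hsd _
    · exact ⟨v, by simp⟩
  have hbl : ∀ t b, bx X (fun i : Fin (2 * p + 2 * q + 3) => c.getD i false) o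
      (φ (Sum.inl (t, b))) = sd X t.isLeft := by
    intro t b
    have h1 := hp1 t
    unfold bx
    rw [ho2 _ (by rw [hφl]; split_ifs <;> omega)]
    change sd X (c.getD ((φ (Sum.inl (t, b)) : Fin _) : ℕ) false) = _
    rw [hφl]
    rcases b with _ | _
    · simp only [if_false, Bool.false_eq_true, Nat.zero_add]
      rw [hc1 _ h1.1, hp3]
    · simp only [if_true]
      rw [hc3, hp3]
  have hbr : ∀ b, bx X (fun i : Fin (2 * p + 2 * q + 3) => c.getD i false) o
      (φ (Sum.inr b)) = sd X b := by
    intro b
    unfold bx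
    rw [ho2 _ (by rw [hφr]; split_ifs <;> omega)]
    change sd X (c.getD ((φ (Sum.inr b) : Fin _) : ℕ) false) = _
    rw [hφr]
    rcases b with _ | _
    · simp only [if_false, Bool.false_eq_true, Nat.zero_add]
      rw [hc1 _ hm1, List.getD_append_right _ _ _ _ le_rfl, Nat.sub_self, List.getD_cons_zero]
    · simp only [if_true]
      rw [hc3, List.getD_append_right _ _ _ _ le_rfl, Nat.sub_self, List.getD_cons_zero]
  have hPE := dens_PE' (M := {z}) h01 h02 h20 hX hX' _ hbx φ hφI hbl hbr hθ0.le hMix.le
  have hwin : ∀ f : Fin (2 * p + 2 * q + 3) → V,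
      (∀ i, f i ∈ bx X (fun i : Fin (2 * p + 2 * q + 3) => c.getD i false) o i) →
      PE H {z} (f ∘ φ) → ∀ a, p + q + 1 ≤ a → a ≤ 2 * p + 2 * q + 2 →
      (Finset.univ.filter fun i : Fin (2 * p + 2 * q + 3) => a ≤ (i : ℕ) + (p + q + 1) ∧
        (i : ℕ) + (p + q + 1) < a + (p + q + 2)).image f ∈ H := by
    intro f hf hP a ha1 ha2
    have hfz : ∀ i : Fin (2 * p + 2 * q + 3), (i : ℕ) = p + q + 1 → f i = z := by
      intro i hi
      have h1 := hf i
      unfold bx at h1
      rw [ho3 i hi] at h1
      simpa using h1
    obtain ⟨b, hb⟩ : ∃ b, a = p + q + 1 + b := ⟨a - (p + q + 1), by omega⟩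
    have hb2 : b ≤ p + q + 1 := by omega
    have key : ∀ cc : Bool, (cc = true ↔ m₁.length < b) →
        (Finset.univ.filter fun i : Fin (2 * p + 2 * q + 3) => a ≤ (i : ℕ) + (p + q + 1) ∧
          (i : ℕ) + (p + q + 1) < a + (p + q + 2)).image f =
        insert ((f ∘ φ) (Sum.inr cc)) ({z} ∪ Finset.univ.image fun t =>
          (f ∘ φ) (Sum.inl (t, decide (hp t < b)))) := by
      intro cc hcc
      have hval : ∀ (i j : Fin (2 * p + 2 * q + 3)), (i : ℕ) = j → f i = f j :=
        fun i j h => congrArg f (Fin.ext h)
      ext v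
      simp only [Finset.mem_image, Finset.mem_insert, Finset.mem_union, Finset.mem_univ, true_and,
        Finset.mem_filter, Finset.mem_singleton, Function.comp_apply]
      constructor
      · rintro ⟨i, ⟨hi1, hi2⟩, rfl⟩
        have hi3 := i.2
        rcases lt_trichotomy (i : ℕ) (p + q + 1) with h1 | h1 | h1
        · by_cases h2 : (i : ℕ) = m₁.length
          · left
            apply hval
            rw [hφr]
            have h3 : cc = false := by
              rw [← Bool.not_eq_true, hcc]
              omega
            rw [h3]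
            simp only [if_false, Bool.false_eq_true]
            omega
          · obtain ⟨t, ht⟩ := hp2 i h1 h2
            right
            right
            refine ⟨t, hval _ _ ?_⟩
            have h3 : decide (hp t < b) = false := decide_eq_false (by omega)
            rw [hφl, h3, ht]
            simp only [if_false, Bool.false_eq_true]
            omega
        · exact Or.inr (Or.inl (hfz i h1))
        · by_cases h2 : (i : ℕ) - (p + q + 2) = m₁.length
          · left
            apply hval
            rw [hφr]
            have h3 : cc = true := by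
              rw [hcc]
              omega
            rw [h3]
            simp only [if_true]
            omega
          · obtain ⟨t, ht⟩ := hp2 ((i : ℕ) - (p + q + 2)) (by omega) h2
            right
            right
            refine ⟨t, hval _ _ ?_⟩
            have h3 : decide (hp t < b) = true := decide_eq_true (by omega)
            rw [hφl, h3, ht]
            simp only [if_true]
            omega
      · rintro (h4 | h4 | ⟨t, h4⟩)
        · refine ⟨φ (Sum.inr cc), ?_, h4.symm⟩
          rw [hφr]
          rcases cc with _ | _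
          · have h5 : ¬ m₁.length < b := fun h => absurd (hcc.2 h) (by decide)
            simp only [if_false, Bool.false_eq_true]
            omega
          · have h5 : m₁.length < b := hcc.1 rfl
            simp only [if_true]
            omega
        · exact ⟨⟨p + q + 1, by omega⟩, ⟨by simp only; omega, by simp only; omega⟩,
            by rw [h4]; exact hfz _ rfl⟩
        · refine ⟨_, ?_, h4⟩
          have h5 := hp1 t
          rw [hφl]
          by_cases h6 : hp t < b
          · simp only [h6, decide_true, if_true]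
            omega
          · simp only [h6, decide_false, Bool.false_eq_true, if_false]
            omega
    have h2 := hP (fun t => decide (hp t < b))
    by_cases h3 : m₁.length < b
    · rw [key true ⟨fun _ => h3, fun _ => rfl⟩]
      exact h2.1
    · rw [key false ⟨fun h => absurd h (by decide), fun h => absurd h h3⟩]
      exact h2.2
  have hdens : (θ 1) ^ (2 ^ (p + q + 2)) ≤
      dens (bx X (fun i : Fin (2 * p + 2 * q + 3) => c.getD i false) o)
      (fun f => ∀ a, p + q + 1 ≤ a → a ≤ 2 * p + 2 * q + 2 →
      (Finset.univ.filter fun i : Fin (2 * p + 2 * q + 3) => a ≤ (i : ℕ) + (p + q + 1) ∧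
        (i : ℕ) + (p + q + 1) < a + (p + q + 2)).image f ∈ H) :=
    hPE.trans ((h01 V (Fin (2 * p + 2 * q + 3)) _ hbx).2.1 _ _ hwin)
  have hfull1 : (m₁ ++ false :: m₂ ++ [false]).length = p + q + 2 := by
    rw [List.length_append, hLl]; rfl
  have hfull2 : (true :: m₁ ++ true :: m₂).length = p + q + 2 := by
    rw [List.cons_append, List.length_cons, hRl]
  have hwA : wt (m₁ ++ false :: m₂ ++ [false]) = p := by
    have h1 : wt (m₁ ++ false :: m₂ ++ [false]) = wt m₁ + wt m₂ := by
      unfold wt
      simp
    rw [h1, hw]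
  have hwB : wt (true :: m₁ ++ true :: m₂) = p + 2 := by
    have h1 : wt (true :: m₁ ++ true :: m₂) = wt m₁ + wt m₂ + 2 := by
      unfold wt
      simp
      omega
    rw [h1, hw]
  have hres := h00 V H X Z p q B (2 * p + 2 * q + 3) δ ε ((θ 1) ^ (2 ^ (p + q + 2))) (η 0) η c
    (m₁ ++ false :: m₂ ++ [false]).tail (true :: m₁ ++ true :: m₂).dropLast o
    (fun f => ∀ a, p + q + 1 ≤ a → a ≤ 2 * p + 2 * q + 2 →
      (Finset.univ.filter fun i : Fin (2 * p + 2 * q + 3) => a ≤ (i : ℕ) + (p + q + 1) ∧
        (i : ℕ) + (p + q + 1) < a + (p + q + 2)).image f ∈ H)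
    hA hC.epos hC.eone hτ hη0.le hcl (by omega)
    (by rw [List.length_tail, hfull1]; omega) (by rw [List.length_dropLast, hfull2]; omega)
    (fun i i' v hi hi' => Fin.ext ((ho1 i v hi).1.trans (ho1 i' v hi').1.symm))
    (fun i v hi => by rw [(ho1 i v hi).2]; exact hzZ) hdens
    (by
      intro a ha
      by_cases hcore : p + q + 1 ≤ a ∧ a ≤ 2 * p + 2 * q + 2
      · left
        exact ⟨hcore.1, by omega, fun f _ hP => hP a hcore.1 hcore.2⟩
      · right
        refine ⟨?_, ?_, ?_⟩
        · rcases Nat.lt_or_ge a (p + q + 1) with h1 | h1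
          · left
            have h2 : ((((m₁ ++ false :: m₂ ++ [false]).tail ++ c ++
                (true :: m₁ ++ true :: m₂).dropLast).drop a).take (p + q + 2)) =
                (((m₁ ++ false :: m₂ ++ [false]).tail ++
                  (m₁ ++ false :: m₂ ++ [false]).dropLast).drop a).take
                  (m₁ ++ false :: m₂ ++ [false]).length := by
              rw [hfull1, List.dropLast_concat, hc]
              have e1 : (m₁ ++ false :: m₂ ++ [false]).tail ++
                  ((m₁ ++ false :: m₂) ++ decide (z ∈ X) :: (m₁ ++ true :: m₂)) ++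
                  (true :: m₁ ++ true :: m₂).dropLast =
                  ((m₁ ++ false :: m₂ ++ [false]).tail ++ (m₁ ++ false :: m₂)) ++
                  (decide (z ∈ X) :: (m₁ ++ true :: m₂) ++
                    (true :: m₁ ++ true :: m₂).dropLast) := by
                simp only [List.append_assoc]
              have e2 : ((m₁ ++ false :: m₂ ++ [false]).tail ++ (m₁ ++ false :: m₂)).length =
                  2 * p + 2 * q + 2 := by
                rw [List.length_append, List.length_tail, hfull1, hLl]; omega
              rw [e1, List.drop_append_of_le_length (by rw [e2]; omega),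
                List.take_append_of_le_length (by rw [List.length_drop, e2]; omega)]
            rw [h2, wt_win _ a (by rw [hfull1]; omega), hwA]
          · right
            have h3 : 2 * p + 2 * q + 3 ≤ a := by
              by_contra hcon
              exact hcore ⟨h1, by omega⟩
            obtain ⟨b, hb⟩ : ∃ b, a = 2 * p + 2 * q + 3 + b := ⟨a - (2 * p + 2 * q + 3), by omega⟩
            have e1 : (m₁ ++ false :: m₂ ++ [false]).tail ++ c ++
                (true :: m₁ ++ true :: m₂).dropLast =
                ((m₁ ++ false :: m₂ ++ [false]).tail ++ (m₁ ++ false :: m₂) ++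
                  [decide (z ∈ X)]) ++ ((true :: m₁ ++ true :: m₂).tail ++
                  (true :: m₁ ++ true :: m₂).dropLast) := by
              rw [hc]
              simp only [List.append_assoc, List.cons_append, List.tail_cons, List.nil_append,
                List.singleton_append]
            have e2 : ((m₁ ++ false :: m₂ ++ [false]).tail ++ (m₁ ++ false :: m₂) ++
                [decide (z ∈ X)]).length = 2 * p + 2 * q + 3 := by
              rw [List.length_append, List.length_append, List.length_tail, hfull1, hLl]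
              simp only [List.length_cons, List.length_nil]
              omega
            have h2 : ((((m₁ ++ false :: m₂ ++ [false]).tail ++ c ++
                (true :: m₁ ++ true :: m₂).dropLast).drop a).take (p + q + 2)) =
                (((true :: m₁ ++ true :: m₂).tail ++
                  (true :: m₁ ++ true :: m₂).dropLast).drop b).take
                  (true :: m₁ ++ true :: m₂).length := by
              rw [e1, hb, ← e2, List.drop_length_add_append, hfull2]
            rw [h2, wt_win _ b (by rw [hfull2]; omega), hwB]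
        · intro i v _ _ hi
          obtain ⟨h1, h2⟩ := ho1 i v hi
          rw [h1, h2, hc2]
          simp
        · intro M' hM'
          have h1 : M' = ∅ := by
            rw [Finset.eq_empty_iff_forall_notMem]
            intro v hv
            obtain ⟨i, hi1, hi2, hi3⟩ := (hM' v).1 hv
            have h2 := (ho1 i v hi3).1
            apply hcore
            omega
          rw [h1]
          exact ⟨hNon, by simp, by simp, le_rfl⟩)
    (hZ.trans hκ)
    (by
      have h1 := hC.thetaG 1 le_rfl (by omega)
      exact h1)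
    (by
      have h1 := hC.thetaG 1 le_rfl (by omega)
      have h2 := hC.delG
      have h3 := hC.eone
      have h4 : ε * η 0 ≤ η 0 := by nlinarith
      have hK1 : (1 : ℝ) ≤ ((p + q + 2 : ℕ) : ℝ) := by
        exact_mod_cast (by omega : 1 ≤ p + q + 2)
      have h5 : η 0 ≤ 32 * ((p + q + 2 : ℕ) : ℝ) * η 0 := by nlinarith
      have h6 : η (1 - 1) = η 0 := rfl
      rw [h6] at h1
      linarith)
  obtain ⟨f, f1, f2, f3, f4, _, f6⟩ := hres
  have hcut : List.ofFn f = (List.ofFn f).take (p + q + 1) ++ z ::
      (List.ofFn f).drop (p + q + 2) := by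
    have hlen : p + q + 1 < (List.ofFn f).length := by rw [List.length_ofFn]; omega
    have h1 := List.take_append_drop (p + q + 1) (List.ofFn f)
    rw [List.drop_eq_getElem_cons hlen, List.getElem_ofFn,
      f3 ⟨p + q + 1, by omega⟩ z (ho3 _ rfl)] at h1
    exact h1.symm
  have hmap : (List.ofFn f).map (fun v => decide (v ∈ X)) = c := by
    rw [List.map_ofFn]
    conv_rhs => rw [← ofFn_getD c hcl]
    congr 1
    funext i
    show decide (f i ∈ X) = c.getD i false
    have key : f i ∈ X ↔ c.getD i false = true := by
      rcases hoi : o i with _ | v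
      · exact f4 i hoi
      · rw [f3 i v hoi]
        obtain ⟨h1, h2⟩ := ho1 i v hoi
        rw [h1, h2, hc2]
        simp
    by_cases hfi : f i ∈ X
    · rw [decide_eq_true hfi, key.1 hfi]
    · rw [decide_eq_false hfi]
      cases hci : c.getD i false
      · rfl
      · exact absurd (key.2 hci) hfi
  refine ⟨(List.ofFn f).take (p + q + 1), (List.ofFn f).drop (p + q + 2), ?_, ?_, ?_, ?_, ?_⟩
  · rw [List.map_take, hmap, hc, ← hLl, List.take_left]
  · rw [List.map_drop, hmap, hc]
    have e1 : p + q + 2 = (m₁ ++ false :: m₂).length + 1 := by rw [hLl]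
    rw [e1, List.drop_length_add_append]
    rfl
  · rw [← hcut]
    exact List.nodup_ofFn.2 f1
  · rw [← hcut]
    intro u hu
    obtain ⟨i, rfl⟩ := (List.mem_ofFn' _ _).1 hu
    exact f2 i
  · rw [← hcut]
    exact f6

end Pool.Agent.KK.E.H76
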