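import Pool.Agent.KK.StmtsV

/-!
# Squad KK, NPA: elementary facts on `NearPar`
-/

set_option autoImplicit false

namespace Pool.Agent.KK.H76

theorem xc_compl' {V : Type} [Fintype V] [DecidableEq V] (X : Finset V) {m : ℕ} (f : Fin m → V) :
    xc Xᶜ f + xc X f = m := by
  unfold xc
  have h := Finset.card_filter_add_card_filter_not (s := (Finset.univ : Finset (Fin m)))
    (fun i => f i ∈ X)
  rw [Finset.card_univ, Fintype.card_fin] at h
  have e : (Finset.univ.filter fun i => f i ∈ Xᶜ) = Finset.univ.filter fun i => ¬ f i ∈ X := by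
    refine Finset.filter_congr fun i _ => ?_
    rw [Finset.mem_compl]
  rw [e]
  omega

/-- NPA -/
theorem npa : NpaStmt := by
  intro V _ _ H A k p η hU hN
  obtain ⟨h1, h2, h3⟩ := hN
  refine ⟨⟨h2, ?_, ?_⟩, ⟨h1, h2, ?_⟩, fun j hj => ?_⟩
  · rw [compl_compl]
    exact h1
  · refine le_trans (le_of_eq ?_) h3
    congr 2
    ext f
    have h4 := xc_compl' A f
    have h5 : xc Aᶜ f % 2 = (k + p) % 2 % 2 ↔ xc A f % 2 = p % 2 := by omega
    simp only [Set.mem_setOf_eq, h5]
  · refine le_trans (le_of_eq ?_) h3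
    congr 2
    ext f
    simp only [Set.mem_setOf_eq, Nat.mod_mod]
  · refine le_trans ?_ h3
    refine Nat.cast_le.2 (Set.ncard_le_ncard ?_ (Set.toFinite _))
    rintro f ⟨hf, hfj⟩
    have hinj : Function.Injective f := by
      have h4 : (Finset.univ.image f).card = (Finset.univ : Finset (Fin k)).card := by
        rw [hU _ hf, Finset.card_univ, Fintype.card_fin]
      have h5 := Finset.card_image_iff.1 h4
      intro a b hab
      exact h5 (Finset.mem_coe.2 (Finset.mem_univ a)) (Finset.mem_coe.2 (Finset.mem_univ b)) hab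
    refine ⟨hinj, fun h6 => hj ?_⟩
    have h7 := h6.1 hf
    rw [← h7]
    unfold xc
    rw [hfj]

end Pool.Agent.KK.H76
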