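import Pool.Agent.KK.StmtsW

/-!
# Squad KK, row RCH: a chain of right moves
-/

set_option autoImplicit false

namespace Pool.Agent.KK.H76

theorem dvd_self_iff {k i c : ℕ} (hi : i < k) (hc : c < k) :
    (k : ℤ) ∣ (i : ℤ) - c ↔ i = c := by
  constructor
  · rintro ⟨m, hm⟩
    have h1 : m = 0 := by
      by_contra hne
      have h2 : (1 : ℤ) ≤ |m| := Int.one_le_abs hne
      have h3 : (k : ℤ) ≤ |(k : ℤ) * m| := by
        rw [abs_mul, Nat.abs_cast]
        nlinarith
      rw [← hm] at h3
      have h4 : |(i : ℤ) - c| < k := by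
        rw [abs_lt]
        constructor <;> omega
      omega
    rw [h1, mul_zero] at hm
    omega
  · rintro rfl
    rw [sub_self]
    exact dvd_zero _

theorem dvd_succ_iff {k i c : ℕ} (hi : i < k) (hc : c < k) :
    (k : ℤ) ∣ (i : ℤ) + 1 - c ↔ i = (c + k - 1) % k := by
  rcases Nat.eq_zero_or_pos c with rfl | hc0
  · have h1 : (0 + k - 1) % k = k - 1 := by
      rw [Nat.zero_add]
      exact Nat.mod_eq_of_lt (by omega)
    rw [h1]
    constructor
    · intro h
      have h2 : (k : ℤ) ∣ ((i + 1 : ℕ) : ℤ) := by
        have : (i : ℤ) + 1 - (0 : ℕ) = ((i + 1 : ℕ) : ℤ) := by push_cast; ring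
        rwa [this] at h
      have h3 : k ∣ i + 1 := by exact_mod_cast h2
      have h4 := Nat.le_of_dvd (by omega) h3
      omega
    · intro h
      have : (i : ℤ) + 1 - (0 : ℕ) = k := by push_cast; omega
      rw [this]
  · have h1 : (c + k - 1) % k = c - 1 := by
      have : c + k - 1 = (c - 1) + k := by omega
      rw [this, Nat.add_mod_right]
      exact Nat.mod_eq_of_lt (by omega)
    rw [h1]
    constructor
    · intro h
      have h2 : (k : ℤ) ∣ (i : ℤ) - ((c - 1 : ℕ) : ℤ) := by
        have : (i : ℤ) - ((c - 1 : ℕ) : ℤ) = (i : ℤ) + 1 - c := by omega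
        rw [this]
        exact h
      exact (dvd_self_iff hi (by omega)).1 h2
    · intro h
      have : (i : ℤ) + 1 - c = 0 := by omega
      rw [this]
      exact dvd_zero _

theorem wd_eq (k : ℕ) (h : ℤ → ℤ) : wd k h =
    (List.range k).map (fun i : ℕ => decide (h ((i : ℤ) + 1) = h (i : ℤ) + 1)) := by
  unfold wd
  have e : ∀ l : List ℕ, (do let a ← l; pure (a : ℤ) : List ℤ) =
      l.map (fun a : ℕ => (a : ℤ)) := by
    intro l
    induction l with
    | nil => rfl
    | cons a l ih =>
      simp only [List.map_cons, ← ih]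
      rfl
  rw [e, List.map_map]
  rfl

theorem wd_getD {k i : ℕ} (h : ℤ → ℤ) (hi : i < k) (b : Bool) :
    (wd k h).getD i b = decide (h ((i : ℤ) + 1) = h (i : ℤ) + 1) := by
  rw [wd_eq]
  rw [List.getD_eq_getElem _ _ (by simpa using hi)]
  simp

theorem per_length (w : List Bool) (a m : ℕ) : (per w a m).length = m := by
  unfold per
  simp

/-- RCH -/
theorem rch (hHLO : HloStmt) (hHWD : HwdStmt) (hRST : RstStmt) (hTRA : TraStmt) : RchStmt := by
  intro V _ _ H X k p t ε K h h' hk ht htk hp hR hh hh' hle
  have main : ∀ (D : ℕ) (h : ℤ → ℤ), Hgt k t h → (∀ x, h' x ≤ h x) →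
      (D : ℤ) = ∑ x ∈ Finset.range k, (h x - h' x) →
      ∃ a : ℕ, (a : ℤ) = 3 * t * D - (h ((k : ℤ) - 1) - h' ((k : ℤ) - 1)) ∧
      Pl V H X k p ε K (per (wd k h) 0 (k - 1)) (per (wd k h') 0 (k - 1)) (3 * k * D) a D := by
    intro D
    induction D with
    | zero =>
      intro h hh hle hD
      have h1 : ∀ x ∈ Finset.range k, h x - h' x = 0 := by
        rw [Nat.cast_zero] at hD
        exact (Finset.sum_eq_zero_iff_of_nonneg (fun x _ => by
          have := hle x
          omega)).1 hD.symm
      have h2 : ∀ x : ℕ, x < k → h x = h' x := by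
        intro x hx
        have := h1 x (Finset.mem_range.2 hx)
        omega
      have h3 : h ((k : ℕ) : ℤ) = h' ((k : ℕ) : ℤ) := by
        have e1 := hh.2 0
        have e2 := hh'.2 0
        have e3 := h2 0 (by omega)
        rw [zero_add] at e1 e2
        rw [Nat.cast_zero] at e3
        rw [e1, e2, e3]
      have h4 : wd k h = wd k h' := by
        rw [wd_eq, wd_eq]
        apply List.map_congr_left
        intro i hi
        have hi' : i < k := List.mem_range.1 hi
        have e1 := h2 i hi'
        have e2 : h ((i : ℤ) + 1) = h' ((i : ℤ) + 1) := by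
          rcases Nat.lt_or_ge (i + 1) k with h5 | h5
          · have := h2 (i + 1) h5
            push_cast at this
            exact this
          · have h6 : i + 1 = k := by omega
            have : ((i : ℤ) + 1) = ((k : ℕ) : ℤ) := by
              rw [← h6]; push_cast; rfl
            rw [this]
            exact h3
        rw [e1, e2]
      refine ⟨0, ?_, ?_⟩
      · have e1 := h2 (k - 1) (by omega)
        have e2 : ((k - 1 : ℕ) : ℤ) = (k : ℤ) - 1 := by omega
        rw [e2] at e1
        rw [e1]
        push_cast
        ring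
      · rw [h4, Nat.mul_zero]
        exact Pl.nil _ (per_length _ _ _)
    | succ D ih =>
      intro h hh hle hD
      have hex : ∃ x, h' x ≠ h x := by
        by_contra hcon
        push Not at hcon
        have : ∑ x ∈ Finset.range k, (h x - h' x) = 0 :=
          Finset.sum_eq_zero fun x _ => by rw [hcon]; ring
        rw [this] at hD
        push_cast at hD
        omega
      obtain ⟨c, hck, hc1, hc2, hg, hle2⟩ := hHLO k t h h' ht htk hh hh' hle hex
      obtain ⟨g, hgdef⟩ : ∃ g : ℤ → ℤ, g = fun x => if (k : ℤ) ∣ x - c then h x - 1 else h x :=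
        ⟨_, rfl⟩
      rw [← hgdef] at hg
      have hgx : ∀ x, g x = if (k : ℤ) ∣ x - c then h x - 1 else h x := by
        intro x; rw [hgdef]
      have hle3 : ∀ x, h' x ≤ g x := by
        intro x; rw [hgx]; exact hle2 x
      have hgi : ∀ i : ℕ, i < k → g i = h i - if i = c then 1 else 0 := by
        intro i hi
        rw [hgx]
        by_cases hic : i = c
        · rw [if_pos ((dvd_self_iff hi hck).2 hic), if_pos hic]
        · rw [if_neg (fun hd => hic ((dvd_self_iff hi hck).1 hd)), if_neg hic, sub_zero]
      have hgi1 : ∀ i : ℕ, i < k → g ((i : ℤ) + 1) =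
          h ((i : ℤ) + 1) - if i = (c + k - 1) % k then 1 else 0 := by
        intro i hi
        rw [hgx]
        by_cases hic : i = (c + k - 1) % k
        · rw [if_pos ((dvd_succ_iff hi hck).2 hic), if_pos hic]
        · rw [if_neg (fun hd => hic ((dvd_succ_iff hi hck).1 hd)), if_neg hic, sub_zero]
      -- the step at the class before `c`
      obtain ⟨b, hb⟩ : ∃ b : ℕ, b = (c + k - 1) % k := ⟨_, rfl⟩
      have hbk : b < k := by rw [hb]; exact Nat.mod_lt _ (by omega)
      have hstep : h ((b : ℤ) + 1) = h (b : ℤ) + 1 := by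
        rcases Nat.eq_zero_or_pos c with rfl | hc0
        · have h1 : b = k - 1 := by
            rw [hb, Nat.zero_add]
            exact Nat.mod_eq_of_lt (by omega)
          have e1 := hh.2 0
          have e2 := hh.2 (-1)
          rw [Nat.cast_zero, zero_sub] at hc1
          have e3 : ((b : ℤ) + 1) = 0 + k := by omega
          have e4 : (b : ℤ) = -1 + k := by omega
          rw [e3, e4, e1, e2, hc1]
          ring
        · have h1 : b = c - 1 := by
            have : c + k - 1 = (c - 1) + k := by omega
            rw [hb, this, Nat.add_mod_right]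
            exact Nat.mod_eq_of_lt (by omega)
          have e3 : ((b : ℤ) + 1) = c := by omega
          have e4 : (b : ℤ) = (c : ℤ) - 1 := by omega
          rw [e3, e4, hc1]
      have hbc : b ≠ c := by
        rintro rfl
        rw [hc2] at hstep
        omega
      have hsum : (D : ℤ) = ∑ x ∈ Finset.range k, (g x - h' x) := by
        have e1 : ∑ x ∈ Finset.range k, (g x - h' x) =
            ∑ x ∈ Finset.range k, ((h x - h' x) - if x = c then 1 else 0) := by
          refine Finset.sum_congr rfl fun x hx => ?_
          rw [hgi x (Finset.mem_range.1 hx)]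
          ring
        rw [e1, Finset.sum_sub_distrib, ← hD, Finset.sum_ite_eq',
          if_pos (Finset.mem_range.2 hck)]
        push_cast
        ring
      obtain ⟨a, ha, hpl⟩ := ih g hg hle3 hsum
      obtain ⟨hWl, hWt⟩ := hHWD.1 k t h hh
      obtain ⟨hWl', hWt'⟩ := hHWD.1 k t g hg
      have hrst := hRST V H X k p ε K (wd k h) (wd k g) c hk hWl hWl' hck
        (by rw [hWt]; exact hp) (by rw [hWt]; exact hR)
        (by
          rw [← hb, wd_getD h hbk]
          simpa using hstep)
        (by
          rw [wd_getD h hck]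
          have : ¬ h ((c : ℤ) + 1) = h (c : ℤ) + 1 := by omega
          simpa using this)
        (by
          intro i hi
          rw [wd_getD g hi, wd_getD h hi, hgi i hi, hgi1 i hi, ← hb]
          by_cases hic : i = c
          · subst hic
            rw [if_pos rfl, if_pos rfl, if_neg hbc.symm]
            have : h ((i : ℤ) + 1) - 0 = h (i : ℤ) - 1 + 1 := by omega
            simpa using this
          · rw [if_neg hic, if_neg hic]
            by_cases hib : i = b
            · subst hib
              rw [if_pos rfl, if_pos rfl]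
              have : ¬ h ((i : ℤ) + 1) - 1 = h (i : ℤ) - 0 + 1 := by omega
              simpa using this
            · rw [if_neg hib, if_neg hib, sub_zero, sub_zero])
      rw [hWt] at hrst
      have htra := hTRA V H X k p ε K _ _ _ _ _ _ _ _ _ hrst hpl
      refine ⟨(3 * t - if c + 1 = k then 1 else 0) + a, ?_, ?_⟩
      · have e1 : g ((k : ℤ) - 1) = h ((k : ℤ) - 1) - if c + 1 = k then 1 else 0 := by
          have e2 : ((k - 1 : ℕ) : ℤ) = (k : ℤ) - 1 := by omega
          have e3 := hgi (k - 1) (by omega)
          rw [e2] at e3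
          rw [e3]
          congr 1
          by_cases hck1 : c + 1 = k
          · rw [if_pos hck1, if_pos (by omega)]
          · rw [if_neg hck1, if_neg (by omega)]
        rw [e1] at ha
        have e4 : (((3 * t - if c + 1 = k then 1 else 0 : ℕ)) : ℤ) =
            3 * t - if c + 1 = k then 1 else 0 := by
          split_ifs <;> omega
        rw [Nat.cast_add, e4, ha]
        push_cast
        ring
      · have e1 : 3 * k * (D + 1) = 3 * k + 3 * k * D := by ring
        have e2 : D + 1 = 1 + D := by ring
        rw [e1, e2]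
        exact htra
  have hnn : 0 ≤ ∑ x ∈ Finset.range k, (h x - h' x) := by
    refine Finset.sum_nonneg fun x _ => ?_
    have := hle x
    omega
  obtain ⟨D, hD⟩ := Int.eq_ofNat_of_zero_le hnn
  obtain ⟨a, ha, hpl⟩ := main D h hh hle hD.symm
  exact ⟨D, a, hD.symm, ha, hpl⟩

end Pool.Agent.KK.H76
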